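import Mathlib
import Pool.Agent.H10.DlbB

set_option autoImplicit false

namespace Pool.Agent.Results.MP_c6e1d2_co.Bound
open Pool.Agent.H10.Dlb

theorem result (m n : ℕ) (A : Matrix (Fin m) (Fin n) ℝ) : detLB A ≤ 56 * herpvdisc A :=
  main A

end Pool.Agent.Results.MP_c6e1d2_co.Bound
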